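import Pool.Agent.SHP.Stmts

/-!
# Row KEY of the squad SHP (MP_d2d93c_nt): the key proposition, from the integer Padé row PIN
-/

namespace Pool.Agent.SHP.H37

/-- The twelfth root of `M`. -/
private theorem root (M : ℤ) (hM : (81 : ℤ) ^ 12 ≤ M) :
    ∃ r : ℝ, 81 ≤ r ∧ r ^ 12 = (M : ℝ) := by
  have hM0 : (0 : ℝ) ≤ (M : ℝ) := by
    have : (0 : ℤ) ≤ M := le_trans (by positivity) hM
    exact_mod_cast this
  refine ⟨(M : ℝ) ^ ((12 : ℕ) : ℝ)⁻¹, ?_, ?_⟩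
  · have h1 : ((81 : ℝ) ^ 12) ≤ (M : ℝ) := by exact_mod_cast hM
    have h2 : (((81 : ℝ) ^ 12) ^ ((12 : ℕ) : ℝ)⁻¹) ≤ (M : ℝ) ^ ((12 : ℕ) : ℝ)⁻¹ :=
      Real.rpow_le_rpow (by positivity) h1 (by positivity)
    rw [Real.pow_rpow_inv_natCast (by norm_num) (by norm_num)] at h2
    exact h2
  · exact Real.rpow_inv_natCast_pow hM0 (by norm_num)

/-- `1.96^N ≤ 2 r^(6ω)` and `r ≥ 81` give `(1 + 1/r)^(N+ω) ≤ 2^ω`. -/
private theorem growth (r : ℝ) (hr : 81 ≤ r) (N ω : ℕ) (hω : 1 ≤ ω)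
    (h : (1.96 : ℝ) ^ N ≤ 2 * r ^ (6 * ω)) : (1 + 1 / r) ^ (N + ω) ≤ (2 : ℝ) ^ ω := by
  have hr0 : (0 : ℝ) < r := by linarith
  have hl2 : Real.log 2 < 0.6931471808 := Real.log_two_lt_d9
  have hl2' : 0.6931471803 < Real.log 2 := Real.log_two_gt_d9
  have hω' : (1 : ℝ) ≤ (ω : ℝ) := by exact_mod_cast hω
  -- `log 1.96 ≥ 0.95 log 2`
  have h196 : 19 * Real.log 2 ≤ 20 * Real.log 1.96 := by
    have : Real.log ((2 : ℝ) ^ 19) ≤ Real.log ((1.96 : ℝ) ^ 20) := by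
      apply Real.log_le_log (by positivity)
      norm_num
    rw [Real.log_pow, Real.log_pow] at this
    exact_mod_cast this
  have hlogr : Real.log r ≤ 7 * Real.log 2 + (r / 81 - 1) := by
    have h1 : Real.log (r / 81) ≤ r / 81 - 1 := Real.log_le_sub_one_of_pos (by positivity)
    rw [Real.log_div hr0.ne' (by norm_num)] at h1
    have h2 : Real.log 81 ≤ Real.log ((2 : ℝ) ^ 7) :=
      Real.log_le_log (by norm_num) (by norm_num)
    rw [Real.log_pow] at h2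
    push_cast at h2
    linarith
  have hN : (N : ℝ) * Real.log 1.96 ≤ Real.log 2 + 6 * ω * Real.log r := by
    have h1 : Real.log ((1.96 : ℝ) ^ N) ≤ Real.log (2 * r ^ (6 * ω)) :=
      Real.log_le_log (by positivity) h
    rw [Real.log_pow, Real.log_mul (by norm_num) (by positivity), Real.log_pow] at h1
    push_cast at h1
    linarith
  have hN2 : (N : ℝ) * (19 * Real.log 2) ≤ 20 * (Real.log 2 + 6 * ω * Real.log r) := by
    have : (N : ℝ) * (19 * Real.log 2) ≤ (N : ℝ) * (20 * Real.log 1.96) :=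
      mul_le_mul_of_nonneg_left h196 (Nat.cast_nonneg N)
    linarith
  have hN3 : (N : ℝ) * (19 * Real.log 2)
      ≤ 20 * (Real.log 2 + 6 * ω * (7 * Real.log 2 + (r / 81 - 1))) := by
    have h1 : 6 * (ω : ℝ) * Real.log r ≤ 6 * ω * (7 * Real.log 2 + (r / 81 - 1)) :=
      mul_le_mul_of_nonneg_left hlogr (by positivity)
    linarith
  -- `N ≤ 0.65 ω r`
  have hN4 : (N : ℝ) + ω ≤ 0.69 * ω * r := by
    have hb : (N : ℝ) * 13.169 ≤ (N : ℝ) * (19 * Real.log 2) :=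
      mul_le_mul_of_nonneg_left (by linarith) (Nat.cast_nonneg N)
    have hc : 6 * (ω : ℝ) * (7 * Real.log 2 + (r / 81 - 1))
        ≤ 6 * ω * (7 * 0.6931471808 + (r / 81 - 1)) :=
      mul_le_mul_of_nonneg_left (by linarith) (by positivity)
    have hd : (N : ℝ) * 13.169 ≤ 20 * (0.6931471808 + 6 * ω * (7 * 0.6931471808 + (r / 81 - 1))) := by
      linarith
    nlinarith [mul_le_mul_of_nonneg_left hr (by linarith : (0 : ℝ) ≤ (ω : ℝ))]
  have h1 : (1 + 1 / r) ^ (N + ω) ≤ Real.exp (((N : ℝ) + ω) / r) := by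
    have h2 : 1 + 1 / r ≤ Real.exp (1 / r) := by
      have := Real.add_one_le_exp (1 / r)
      linarith
    calc (1 + 1 / r) ^ (N + ω) ≤ (Real.exp (1 / r)) ^ (N + ω) :=
          pow_le_pow_left₀ (by positivity) h2 _
      _ = Real.exp (((N : ℝ) + ω) / r) := by
          rw [← Real.exp_nat_mul]
          congr 1
          push_cast
          ring
  have h3 : ((N : ℝ) + ω) / r ≤ ω * Real.log 2 := by
    rw [div_le_iff₀ hr0]
    have : 0.69 * (ω : ℝ) * r ≤ ω * Real.log 2 * r := by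
      apply mul_le_mul_of_nonneg_right _ hr0.le
      nlinarith
    linarith
  calc (1 + 1 / r) ^ (N + ω) ≤ Real.exp (((N : ℝ) + ω) / r) := h1
    _ ≤ Real.exp (ω * Real.log 2) := Real.exp_le_exp.mpr h3
    _ = (2 : ℝ) ^ ω := by
        rw [Real.exp_nat_mul, Real.exp_log (by norm_num)]

/-- Case 1 of the key proposition: the `b2`-adic Padé. -/
private theorem case1 (hpin : PinStmt) (b1 b2 U V e : ℤ) (N n2 ω : ℕ)
    (hb2 : 0 < b2) (hcop : IsCoprime b1 b2) (hU : 0 < U)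
    (hω : 1 ≤ ω) (hωN : ω + 1 ≤ N)
    (heq : U * b1 ^ N + e * (U * b2 ^ n2) = V * (b1 + b2) ^ N) (hM0 : 0 < b1 + b2)
    (h2 : 2 * ω ≤ n2) (r : ℝ) (hr : 81 ≤ r) (hr12 : r ^ 12 = ((b1 + b2 : ℤ) : ℝ))
    (hx2 : 0.49 * r ^ 12 ≤ (b2 : ℝ)) (hx2' : (b2 : ℝ) ≤ r ^ 12)
    (hu : (U : ℝ) ≤ r ^ (6 * ω)) (hV0 : 0 ≤ V) (hvu : (V : ℝ) ≤ U)
    (hgr : (1 + 1 / r) ^ (N + ω) ≤ (2 : ℝ) ^ ω) : False := by
  have hr0 : (0 : ℝ) < r := by linarith
  obtain ⟨P, Q, hI, ⟨K, hK⟩, hP, hQ, -⟩ := hpin N ω hω hωN (b1 + b2) (-b2) hM0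
    (neg_ne_zero.mpr hb2.ne') U V (Or.inl hU.ne')
  have hMb : b1 + b2 + -b2 = b1 := by ring
  rw [hMb] at hK
  have hev : (-b2) ^ (2 * ω) = b2 ^ (2 * ω) := by
    rw [pow_mul, pow_mul]
    congr 1
    ring
  rw [hev] at hK
  -- divisibility
  obtain ⟨c, hc⟩ : b2 ^ (2 * ω) ∣ b2 ^ n2 := pow_dvd_pow b2 h2
  have hdiv : b2 ^ (2 * ω) ∣ b1 ^ N * (Q * V - P * U) := by
    refine ⟨V * K + e * P * U * c, ?_⟩
    have h3 : U * b1 ^ N = V * (b1 + b2) ^ N - e * (U * b2 ^ n2) := by linarith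
    calc b1 ^ N * (Q * V - P * U) = V * (Q * b1 ^ N) - P * (U * b1 ^ N) := by ring
      _ = V * (Q * b1 ^ N - P * (b1 + b2) ^ N) + e * P * U * b2 ^ n2 := by rw [h3]; ring
      _ = b2 ^ (2 * ω) * (V * K + e * P * U * c) := by rw [hK, hc]; ring
  have hcop2 : IsCoprime (b2 ^ (2 * ω)) (b1 ^ N) := (hcop.symm).pow
  have hdvd : b2 ^ (2 * ω) ∣ (Q * V - P * U) := hcop2.dvd_of_dvd_mul_left hdiv
  have hle : b2 ^ (2 * ω) ≤ |Q * V - P * U| :=
    Int.le_of_dvd (abs_pos.mpr hI) ((dvd_abs _ _).mpr hdvd)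
  have hle' : (b2 : ℝ) ^ (2 * ω) ≤ |(Q : ℝ) * V - P * U| := by exact_mod_cast hle
  -- upper bounds
  have hbase : 1 + |((-b2 : ℤ) : ℝ)| / (((b1 + b2 : ℤ) : ℝ) * r) ≤ 1 + 1 / r := by
    have h4 : |((-b2 : ℤ) : ℝ)| = (b2 : ℝ) := by
      push_cast
      rw [abs_neg, abs_of_pos (by exact_mod_cast hb2)]
    rw [h4, ← hr12]
    have h5 : (b2 : ℝ) / (r ^ 12 * r) ≤ 1 / r := by
      rw [div_le_div_iff₀ (by positivity) hr0]
      nlinarith
    linarith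
  have hbase0 : (0 : ℝ) ≤ 1 + |((-b2 : ℤ) : ℝ)| / (((b1 + b2 : ℤ) : ℝ) * r) := by
    rw [← hr12]
    positivity
  have hpow : (1 + |((-b2 : ℤ) : ℝ)| / (((b1 + b2 : ℤ) : ℝ) * r)) ^ (N + ω) ≤ (2 : ℝ) ^ ω :=
    (pow_le_pow_left₀ hbase0 hbase _).trans hgr
  have hB : ∀ T : ℝ, T ≤ 4 ^ ω * ((b1 + b2 : ℤ) : ℝ) ^ ω * r ^ ω *
      (1 + |((-b2 : ℤ) : ℝ)| / (((b1 + b2 : ℤ) : ℝ) * r)) ^ (N + ω) →
      T ≤ (8 * r ^ 13) ^ ω := by
    intro T hT
    refine hT.trans ?_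
    rw [← hr12]
    rw [← hr12] at hpow
    calc 4 ^ ω * (r ^ 12) ^ ω * r ^ ω * (1 + |((-b2 : ℤ) : ℝ)| / (r ^ 12 * r)) ^ (N + ω)
        ≤ 4 ^ ω * (r ^ 12) ^ ω * r ^ ω * 2 ^ ω :=
          mul_le_mul_of_nonneg_left hpow (by positivity)
      _ = (8 * r ^ 13) ^ ω := by
          rw [← mul_pow, ← mul_pow, ← mul_pow]
          congr 1
          ring
  have hP' := hB _ (hP r (by linarith))
  have hQ' := hB _ (hQ r (by linarith))
  have hU' : (0 : ℝ) < (U : ℝ) := by exact_mod_cast hU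
  have hV' : (0 : ℝ) ≤ (V : ℝ) := by exact_mod_cast hV0
  have hup : |(Q : ℝ) * V - P * U| ≤ 2 * (8 * r ^ 19) ^ ω := by
    calc |(Q : ℝ) * V - P * U| ≤ |(Q : ℝ) * V| + |(P : ℝ) * U| := abs_sub _ _
      _ = |(Q : ℝ)| * V + |(P : ℝ)| * U := by
          rw [abs_mul, abs_mul, abs_of_nonneg hV', abs_of_pos hU']
      _ ≤ (8 * r ^ 13) ^ ω * r ^ (6 * ω) + (8 * r ^ 13) ^ ω * r ^ (6 * ω) := by
          apply add_le_add
          · exact mul_le_mul hQ' (hvu.trans hu) hV' (by positivity)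
          · exact mul_le_mul hP' hu hU'.le (by positivity)
      _ = 2 * (8 * r ^ 19) ^ ω := by
          rw [pow_mul, ← mul_pow]
          have : (8 : ℝ) * r ^ 13 * r ^ 6 = 8 * r ^ 19 := by ring
          rw [this]
          ring
  have hlow : (24 * r ^ 19) ^ ω ≤ (b2 : ℝ) ^ (2 * ω) := by
    calc (24 * r ^ 19) ^ ω ≤ ((0.49 * r ^ 12) ^ 2) ^ ω := by
          apply pow_le_pow_left₀ (by positivity)
          have h6 : (100 : ℝ) ≤ r ^ 5 := by
            calc (100 : ℝ) ≤ 81 ^ 5 := by norm_num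
              _ ≤ r ^ 5 := pow_le_pow_left₀ (by norm_num) hr 5
          have h7 : (0.49 * r ^ 12) ^ 2 = 0.2401 * (r ^ 5) * r ^ 19 := by ring
          rw [h7]
          apply mul_le_mul_of_nonneg_right _ (by positivity)
          linarith
      _ = (0.49 * r ^ 12) ^ (2 * ω) := by rw [pow_mul]
      _ ≤ (b2 : ℝ) ^ (2 * ω) := pow_le_pow_left₀ (by positivity) hx2 _
  have h3 : (24 * r ^ 19) ^ ω = 3 ^ ω * (8 * r ^ 19) ^ ω := by
    rw [← mul_pow]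
    congr 1
    ring
  have h3' : (3 : ℝ) ≤ 3 ^ ω := by
    calc (3 : ℝ) = 3 ^ 1 := by norm_num
      _ ≤ 3 ^ ω := pow_le_pow_right₀ (by norm_num) hω
  have hpos : (0 : ℝ) < (8 * r ^ 19) ^ ω := by positivity
  have : 3 * (8 * r ^ 19) ^ ω ≤ 2 * (8 * r ^ 19) ^ ω := by
    calc 3 * (8 * r ^ 19) ^ ω ≤ 3 ^ ω * (8 * r ^ 19) ^ ω :=
          mul_le_mul_of_nonneg_right h3' hpos.le
      _ = (24 * r ^ 19) ^ ω := h3.symm
      _ ≤ _ := hlow.trans (hle'.trans hup)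
  linarith

/-- Case 2 of the key proposition: the real Padé. -/
private theorem case2 (hpin : PinStmt) (b1 b2 U V e : ℤ) (N n2 ω : ℕ) (he : e = 1 ∨ e = -1)
    (hb2 : 0 < b2) (hU : 0 < U) (hω : 1 ≤ ω) (hωN : 4 * ω ≤ N)
    (heq : U * b1 ^ N + e * (U * b2 ^ n2) = V * (b1 + b2) ^ N) (hM0 : 0 < b1 + b2)
    (h2 : n2 < 2 * ω) (hne : b1 ≠ b2) (r : ℝ) (hr : 81 ≤ r)
    (hr12 : r ^ 12 = ((b1 + b2 : ℤ) : ℝ)) (hΔ : |((b1 - b2 : ℤ) : ℝ)| ≤ r)
    (hu : (U : ℝ) ≤ r ^ (6 * ω))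
    (hgr : (1 + 1 / r) ^ (N + ω) ≤ (2 : ℝ) ^ ω) : False := by
  have hr0 : (0 : ℝ) < r := by linarith
  have hr1 : (1 : ℝ) ≤ r := by linarith
  obtain ⟨P, Q, hJ, -, hP, hQ, hR⟩ := hpin N ω hω (by omega) (b1 + b2) (b1 - b2) hM0
    (sub_ne_zero.mpr hne) U (2 ^ N * V) (Or.inl hU.ne')
  have hJ1 : (1 : ℝ) ≤ |(Q : ℝ) * (2 ^ N * V) - P * U| := by
    have h1 : (1 : ℤ) ≤ |Q * (2 ^ N * V) - P * U| := Int.one_le_abs hJ
    exact_mod_cast h1
  have hU' : (0 : ℝ) < (U : ℝ) := by exact_mod_cast hU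
  have hb2' : (0 : ℝ) < (b2 : ℝ) := by exact_mod_cast hb2
  have hEq : (U : ℝ) * b1 ^ N + e * (U * b2 ^ n2) = V * (r ^ 12) ^ N := by
    rw [hr12]
    exact_mod_cast heq
  have hm0 : (0 : ℝ) < r ^ 12 := by positivity
  have hb : (1 : ℝ) + ((b1 - b2 : ℤ) : ℝ) / r ^ 12 = 2 * b1 / r ^ 12 := by
    rw [eq_div_iff hm0.ne', add_mul, div_mul_cancel₀ _ hm0.ne', one_mul, hr12]
    push_cast
    ring
  -- the identity for `J`
  have hJeq : (Q : ℝ) * (2 ^ N * V) - P * U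
      = U * (Q * (1 + ((b1 - b2 : ℤ) : ℝ) / r ^ 12) ^ N - P)
        + Q * (e * (U * (2 ^ N * b2 ^ n2 / (r ^ 12) ^ N))) := by
    rw [hb, div_pow, mul_pow]
    have h1 : (V : ℝ) = (U * b1 ^ N + e * (U * b2 ^ n2)) / (r ^ 12) ^ N := by
      rw [hEq, mul_div_cancel_right₀ _ (by positivity)]
    rw [h1]
    field_simp
    ring
  -- first term
  have h1r : 2 * |((b1 - b2 : ℤ) : ℝ)| * r ≤ ((b1 + b2 : ℤ) : ℝ) := by
    rw [← hr12]
    calc 2 * |((b1 - b2 : ℤ) : ℝ)| * r ≤ 2 * r * r := by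
          apply mul_le_mul_of_nonneg_right _ hr0.le
          linarith
      _ ≤ r ^ 12 := by
          have h5 : (2 : ℝ) ≤ r ^ 10 := by
            calc (2 : ℝ) ≤ 81 ^ 10 := by norm_num
              _ ≤ r ^ 10 := pow_le_pow_left₀ (by norm_num) hr 10
          calc 2 * r * r = 2 * r ^ 2 := by ring
            _ ≤ r ^ 10 * r ^ 2 := mul_le_mul_of_nonneg_right h5 (by positivity)
            _ = r ^ 12 := by ring
  have hR' := hR r hr1 h1r
  rw [← hr12] at hR'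
  have hT1 : |(U : ℝ) * (Q * (1 + ((b1 - b2 : ℤ) : ℝ) / r ^ 12) ^ N - P)| ≤ 1 / 4 := by
    rw [abs_mul, abs_of_pos hU']
    have h3 : (2 * |((b1 - b2 : ℤ) : ℝ)| * r / r ^ 12) ^ (2 * ω) ≤ (2 / r ^ 10) ^ (2 * ω) := by
      apply pow_le_pow_left₀ (by positivity)
      rw [div_le_div_iff₀ (by positivity) (by positivity)]
      calc 2 * |((b1 - b2 : ℤ) : ℝ)| * r * r ^ 10 ≤ 2 * r * r * r ^ 10 := by
            apply mul_le_mul_of_nonneg_right _ (by positivity)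
            apply mul_le_mul_of_nonneg_right _ hr0.le
            linarith
        _ = 2 * r ^ 12 := by ring
    calc (U : ℝ) * |Q * (1 + ((b1 - b2 : ℤ) : ℝ) / r ^ 12) ^ N - P|
        ≤ r ^ (6 * ω) * ((r ^ 12) ^ ω * (2 / r ^ 10) ^ (2 * ω) * 2 ^ ω) := by
          apply mul_le_mul hu _ (abs_nonneg _) (by positivity)
          refine hR'.trans ?_
          apply mul_le_mul _ hgr (by positivity) (by positivity)
          exact mul_le_mul_of_nonneg_left h3 (by positivity)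
      _ = (8 / r ^ 2) ^ ω := by
          rw [pow_mul, pow_mul, ← mul_pow, ← mul_pow, ← mul_pow]
          congr 1
          field_simp
          ring
      _ ≤ (1 / 4) ^ ω := by
          apply pow_le_pow_left₀ (by positivity)
          rw [div_le_div_iff₀ (by positivity) (by norm_num)]
          nlinarith
      _ ≤ (1 / 4 : ℝ) ^ 1 := pow_le_pow_of_le_one (by norm_num) (by norm_num) hω
      _ = 1 / 4 := by norm_num
  -- second term
  have hQ' := hQ 1 le_rfl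
  rw [one_pow, mul_one, mul_one, ← hr12] at hQ'
  have hε : |((b1 - b2 : ℤ) : ℝ)| / r ^ 12 ≤ 1 / r := by
    rw [div_le_div_iff₀ hm0 hr0]
    have h5 : (1 : ℝ) ≤ r ^ 10 := one_le_pow₀ hr1
    calc |((b1 - b2 : ℤ) : ℝ)| * r ≤ r * r := mul_le_mul_of_nonneg_right hΔ hr0.le
      _ = 1 * r ^ 2 := by ring
      _ ≤ r ^ 10 * r ^ 2 := mul_le_mul_of_nonneg_right h5 (by positivity)
      _ = 1 * r ^ 12 := by ring
  have hQ2 : |(Q : ℝ)| ≤ (8 * r ^ 12) ^ ω := by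
    calc |(Q : ℝ)| ≤ 4 ^ ω * (r ^ 12) ^ ω * (1 + |((b1 - b2 : ℤ) : ℝ)| / r ^ 12) ^ (N + ω) := hQ'
      _ ≤ 4 ^ ω * (r ^ 12) ^ ω * 2 ^ ω := by
          apply mul_le_mul_of_nonneg_left _ (by positivity)
          refine (pow_le_pow_left₀ (by positivity) ?_ _).trans hgr
          linarith
      _ = (8 * r ^ 12) ^ ω := by
          rw [← mul_pow, ← mul_pow]
          congr 1
          ring
  obtain ⟨k, hk⟩ : ∃ k, N = n2 + k := ⟨N - n2, by omega⟩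
  have hk2 : 2 * ω + 1 ≤ k := by omega
  have hsm : (2 : ℝ) / r ^ 12 ≤ 1 := by
    rw [div_le_one hm0]
    calc (2 : ℝ) ≤ 81 ^ 12 := by norm_num
      _ ≤ r ^ 12 := pow_le_pow_left₀ (by norm_num) hr 12
  have h2b2 : 2 * (b2 : ℝ) / r ^ 12 ≤ 1 + 1 / r := by
    have h6 : 2 * (b2 : ℝ) ≤ r ^ 12 + |((b1 - b2 : ℤ) : ℝ)| := by
      rw [hr12]
      have := neg_abs_le ((b1 - b2 : ℤ) : ℝ)
      push_cast at this ⊢
      linarith
    calc 2 * (b2 : ℝ) / r ^ 12 ≤ (r ^ 12 + |((b1 - b2 : ℤ) : ℝ)|) / r ^ 12 := by gcongr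
      _ = 1 + |((b1 - b2 : ℤ) : ℝ)| / r ^ 12 := by
          rw [add_div, div_self hm0.ne']
      _ ≤ 1 + 1 / r := by linarith
  have hT2a : (2 : ℝ) ^ N * b2 ^ n2 / (r ^ 12) ^ N ≤ 2 ^ ω * (2 / r ^ 12) ^ (2 * ω + 1) := by
    have h7 : (2 : ℝ) ^ N * b2 ^ n2 / (r ^ 12) ^ N
        = (2 * (b2 : ℝ) / r ^ 12) ^ n2 * (2 / r ^ 12) ^ k := by
      rw [hk, div_pow, div_pow, mul_pow, pow_add, pow_add]
      field_simp
    rw [h7]
    apply mul_le_mul _ _ (by positivity) (by positivity)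
    · calc (2 * (b2 : ℝ) / r ^ 12) ^ n2 ≤ (1 + 1 / r) ^ n2 :=
            pow_le_pow_left₀ (by positivity) h2b2 _
        _ ≤ (1 + 1 / r) ^ (N + ω) := by
            apply pow_le_pow_right₀
            · have : 0 < 1 / r := by positivity
              linarith
            · omega
        _ ≤ 2 ^ ω := hgr
    · exact pow_le_pow_of_le_one (by positivity) hsm hk2
  have he1 : |(e : ℝ)| = 1 := by
    rcases he with h | h <;> simp [h]
  have hT2 : |(Q : ℝ) * (e * (U * (2 ^ N * b2 ^ n2 / (r ^ 12) ^ N)))| ≤ 1 / 4 := by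
    have hnn : (0 : ℝ) ≤ 2 ^ N * b2 ^ n2 / (r ^ 12) ^ N := by positivity
    rw [abs_mul, abs_mul, abs_mul, he1, one_mul, abs_of_pos hU', abs_of_nonneg hnn]
    calc |(Q : ℝ)| * (U * (2 ^ N * b2 ^ n2 / (r ^ 12) ^ N))
        ≤ (8 * r ^ 12) ^ ω * (r ^ (6 * ω) * (2 ^ ω * (2 / r ^ 12) ^ (2 * ω + 1))) := by
          apply mul_le_mul hQ2 _ (by positivity) (by positivity)
          exact mul_le_mul hu hT2a hnn (by positivity)
      _ = (64 / r ^ 6) ^ ω * (2 / r ^ 12) := by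
          rw [pow_succ (2 / r ^ 12) (2 * ω), pow_mul r 6 ω, pow_mul (2 / r ^ 12) 2 ω,
            ← mul_assoc, ← mul_assoc, ← mul_assoc, ← mul_pow, ← mul_pow, ← mul_pow]
          congr 2
          field_simp
          ring
      _ ≤ 1 ^ ω * (1 / 4) := by
          apply mul_le_mul _ _ (by positivity) (by positivity)
          · apply pow_le_pow_left₀ (by positivity)
            rw [div_le_one (by positivity)]
            calc (64 : ℝ) ≤ 81 ^ 6 := by norm_num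
              _ ≤ r ^ 6 := pow_le_pow_left₀ (by norm_num) hr 6
          · rw [div_le_div_iff₀ hm0 (by norm_num)]
            calc (2 : ℝ) * 4 ≤ 1 * 81 ^ 12 := by norm_num
              _ ≤ 1 * r ^ 12 := by
                  have := pow_le_pow_left₀ (by norm_num : (0 : ℝ) ≤ 81) hr 12
                  linarith
      _ = 1 / 4 := by rw [one_pow, one_mul]
  have : |(Q : ℝ) * (2 ^ N * V) - P * U| ≤ 1 / 4 + 1 / 4 := by
    rw [hJeq]
    exact (abs_add_le _ _).trans (add_le_add hT1 hT2)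
  linarith

/-- **Row KEY.** -/
theorem key (hpin : PinStmt) : KeyStmt := by
  intro b1 b2 U V e N n2 ω he hb1 hb2 hcop hU hV hn2 hω hωN heq hU2 hΔ hne hM
  obtain ⟨r, hr, hr12⟩ := root (b1 + b2) hM
  have hr0 : (0 : ℝ) < r := by linarith
  have hM0 : 0 < b1 + b2 := by linarith
  have hU' : (0 : ℝ) < (U : ℝ) := by exact_mod_cast hU
  have hV' : (1 : ℝ) ≤ (V : ℝ) := by exact_mod_cast hV
  have hx1 : (0 : ℝ) < (b1 : ℝ) := by exact_mod_cast hb1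
  have hx2 : (0 : ℝ) < (b2 : ℝ) := by exact_mod_cast hb2
  have hsum : (b1 : ℝ) + b2 = r ^ 12 := by rw [hr12]; push_cast; ring
  -- `Δ ≤ r`
  have hΔr : |((b1 - b2 : ℤ) : ℝ)| ≤ r := by
    have h1 : |((b1 - b2 : ℤ) : ℝ)| ^ 12 ≤ r ^ 12 := by
      rw [hr12]
      exact_mod_cast hΔ
    exact (pow_le_pow_iff_left₀ (abs_nonneg _) hr0.le (by norm_num)).mp h1
  have hrs : r ≤ 0.02 * r ^ 12 := by
    have h5 : (100 : ℝ) ≤ r ^ 11 := by
      calc (100 : ℝ) ≤ 81 ^ 11 := by norm_num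
        _ ≤ r ^ 11 := pow_le_pow_left₀ (by norm_num) hr 11
    have h6 : r ^ 12 = r ^ 11 * r := by ring
    rw [h6]
    nlinarith
  have hab := abs_le.mp hΔr
  push_cast at hab
  have hb1u : (b1 : ℝ) ≤ 0.51 * r ^ 12 := by linarith [hab.2]
  have hb2u : (b2 : ℝ) ≤ 0.51 * r ^ 12 := by linarith [hab.1]
  have hb2l : 0.49 * r ^ 12 ≤ (b2 : ℝ) := by linarith [hab.2]
  -- `U ≤ r^(6ω)`
  have hu : (U : ℝ) ≤ r ^ (6 * ω) := by
    have h1 : (U : ℝ) ^ 2 ≤ (r ^ (6 * ω)) ^ 2 := by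
      have h2 : (U : ℝ) ^ 2 ≤ ((b1 + b2 : ℤ) : ℝ) ^ ω := by exact_mod_cast hU2
      rw [← hr12] at h2
      calc (U : ℝ) ^ 2 ≤ (r ^ 12) ^ ω := h2
        _ = (r ^ (6 * ω)) ^ 2 := by
            rw [← pow_mul, ← pow_mul]
            congr 1
            ring
    exact (pow_le_pow_iff_left₀ hU'.le (by positivity) (by norm_num)).mp h1
  -- the size of the right hand side
  have hb2n : b2 ^ n2 ≤ b2 ^ N := pow_le_pow_right₀ (by linarith) hn2.le
  have hle1 : V * (b1 + b2) ^ N ≤ U * (b1 ^ N + b2 ^ N) := by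
    rw [← heq]
    have h1 : e * (U * b2 ^ n2) ≤ U * b2 ^ N := by
      have h0 : 0 ≤ U * b2 ^ n2 := by positivity
      have h3 : U * b2 ^ n2 ≤ U * b2 ^ N := mul_le_mul_of_nonneg_left hb2n hU.le
      rcases he with h | h <;> rw [h] <;> linarith
    linarith
  have hvu : V ≤ U := by
    have h1 : b1 ^ N + b2 ^ N ≤ (b1 + b2) ^ N :=
      pow_add_pow_le hb1.le hb2.le (by omega)
    have h2 : V * (b1 + b2) ^ N ≤ U * (b1 + b2) ^ N :=
      hle1.trans (mul_le_mul_of_nonneg_left h1 hU.le)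
    exact le_of_mul_le_mul_right h2 (by positivity)
  have hvu' : (V : ℝ) ≤ U := by exact_mod_cast hvu
  have h196 : (1.96 : ℝ) ^ N ≤ 2 * r ^ (6 * ω) := by
    have h1 : (V : ℝ) * (r ^ 12) ^ N ≤ U * ((b1 : ℝ) ^ N + b2 ^ N) := by
      rw [hr12]
      exact_mod_cast hle1
    have h2 : (b1 : ℝ) ^ N + b2 ^ N ≤ 2 * (0.51 ^ N * (r ^ 12) ^ N) := by
      have h3 := pow_le_pow_left₀ hx1.le hb1u N
      have h4 := pow_le_pow_left₀ hx2.le hb2u N
      rw [mul_pow] at h3 h4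
      linarith
    have hpos : (0 : ℝ) < (r ^ 12) ^ N := by positivity
    have h5 : 1 * (r ^ 12) ^ N ≤ (2 * U * 0.51 ^ N) * (r ^ 12) ^ N := by
      calc 1 * (r ^ 12) ^ N ≤ V * (r ^ 12) ^ N := mul_le_mul_of_nonneg_right hV' hpos.le
        _ ≤ U * (2 * (0.51 ^ N * (r ^ 12) ^ N)) :=
            h1.trans (mul_le_mul_of_nonneg_left h2 hU'.le)
        _ = (2 * U * 0.51 ^ N) * (r ^ 12) ^ N := by ring
    have h6 : (1 : ℝ) ≤ 2 * U * 0.51 ^ N := le_of_mul_le_mul_right h5 hpos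
    calc (1.96 : ℝ) ^ N = 1.96 ^ N * 1 := by ring
      _ ≤ 1.96 ^ N * (2 * U * 0.51 ^ N) := mul_le_mul_of_nonneg_left h6 (by positivity)
      _ = 2 * U * (1.96 * 0.51) ^ N := by rw [mul_pow]; ring
      _ ≤ 2 * U * 1 := by
          apply mul_le_mul_of_nonneg_left _ (by positivity)
          exact pow_le_one₀ (by norm_num) (by norm_num)
      _ ≤ 2 * r ^ (6 * ω) := by linarith
  have hgr := growth r hr N ω hω h196
  rcases le_or_gt (2 * ω) n2 with h | h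
  · exact case1 hpin b1 b2 U V e N n2 ω hb2 hcop hU hω (by omega) heq hM0 h r hr hr12 hb2l
      (by linarith) hu hV.le hvu' hgr
  · exact case2 hpin b1 b2 U V e N n2 ω he hb2 hU hω hωN heq hM0 h hne r hr hr12 hΔr hu hgr

end Pool.Agent.SHP.H37
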